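import Mathlib
import Pool.Agent.N929.ON.Stm

/-!
Project ON, leaf EDG: the number of edges of a good pattern. By helper945.
-/

set_option autoImplicit false

namespace Pool.Agent.N945.ON

open Finset
open Pool.Agent.N929.ON hiding flip

theorem dir_ne (k : Fin 6) : dir k ≠ 0 := by
  fin_cases k <;> simp [dir]

theorem ne1 (f : ℤ × ℤ) (k : Fin 6) : f + dir k ≠ f := fun h => dir_ne k (by simpa using h)

theorem ne2 (f : ℤ × ℤ) (k : Fin 6) : f - dir k ≠ f := fun h => dir_ne k (by simpa using h)

theorem flip_of_ne {f g : ℤ × ℤ} (σ : ℤ × ℤ → Bool) (h : g ≠ f) :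
    Pool.Agent.N929.ON.flip f σ g = σ g := by
  unfold Pool.Agent.N929.ON.flip
  rw [Function.update_of_ne h]

theorem flip_self (f : ℤ × ℤ) (σ : ℤ × ℤ → Bool) :
    Pool.Agent.N929.ON.flip f σ f = !σ f := by
  unfold Pool.Agent.N929.ON.flip
  rw [Function.update_self]

/-- the valid states at the face `f` -/
def T (f : ℤ × ℤ) (σ : ℤ × ℤ → Bool) : Set St := {s | Val σ s ∧ (s.1 = f ∨ rt s = f)}

/-- the other ones -/
def R (W L : ℕ) (f : ℤ × ℤ) (σ : ℤ × ℤ → Bool) : Set St :=
  {s | Val σ s ∧ (s.1 ∈ Dom W L ∨ rt s ∈ Dom W L) ∧ s.1 ≠ f ∧ rt s ≠ f}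

theorem fin_all (W L : ℕ) : {s : St | s.1 ∈ Dom W L ∨ rt s ∈ Dom W L}.Finite := by
  have h1 : ((Dom W L ×ˢ (univ : Finset (Fin 6)) : Finset St) : Set St).Finite :=
    Finset.finite_toSet _
  have h2 : ((fun s : St => ((s.1 - dir s.2, s.2) : St)) ''
      ((Dom W L ×ˢ (univ : Finset (Fin 6)) : Finset St) : Set St)).Finite := h1.image _
  refine (h1.union h2).subset ?_
  rintro ⟨g, k⟩ (h | h)
  · left
    simp only [coe_product, Set.mem_prod, mem_coe, coe_univ, Set.mem_univ, and_true]
    exact h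
  · right
    refine ⟨(g + dir k, k), ?_, ?_⟩
    · simp only [coe_product, Set.mem_prod, mem_coe, coe_univ, Set.mem_univ, and_true]
      exact h
    · simp

theorem edg_eq {W L : ℕ} {f : ℤ × ℤ} (hf : f ∈ Dom W L) (σ : ℤ × ℤ → Bool) :
    edg W L σ = (T f σ).ncard + (R W L f σ).ncard := by
  have h1 : {s : St | Val σ s ∧ (s.1 ∈ Dom W L ∨ rt s ∈ Dom W L)} = T f σ ∪ R W L f σ := by
    ext s
    constructor
    · rintro ⟨h1, h2⟩
      by_cases h3 : s.1 = f ∨ rt s = f
      · exact Or.inl ⟨h1, h3⟩
      · push Not at h3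
        exact Or.inr ⟨h1, h2, h3.1, h3.2⟩
    · rintro (⟨h1, h2⟩ | ⟨h1, h2, -, -⟩)
      · refine ⟨h1, ?_⟩
        rcases h2 with h2 | h2
        · left
          rw [h2]
          exact hf
        · right
          rw [h2]
          exact hf
      · exact ⟨h1, h2⟩
  have hT : (T f σ).Finite := by
    refine (fin_all W L).subset ?_
    rintro s ⟨-, h2 | h2⟩
    · left
      rw [h2]
      exact hf
    · right
      rw [h2]
      exact hf
  have hR : (R W L f σ).Finite := (fin_all W L).subset fun s hs => hs.2.1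
  unfold edg
  rw [h1, Set.ncard_union_eq ?_ hT hR]
  rw [Set.disjoint_left]
  rintro s ⟨-, h2⟩ ⟨-, -, h3, h4⟩
  rcases h2 with h2 | h2
  · exact h3 h2
  · exact h4 h2

theorem R_flip (W L : ℕ) (f : ℤ × ℤ) (σ : ℤ × ℤ → Bool) : R W L f (Pool.Agent.N929.ON.flip f σ) = R W L f σ := by
  ext s
  constructor
  · rintro ⟨⟨h1, h2⟩, h3, h4, h5⟩
    rw [flip_of_ne σ h4] at h1
    rw [flip_of_ne σ h5] at h2
    exact ⟨⟨h1, h2⟩, h3, h4, h5⟩
  · rintro ⟨⟨h1, h2⟩, h3, h4, h5⟩
    refine ⟨⟨?_, ?_⟩, h3, h4, h5⟩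
    · rw [flip_of_ne σ h4]
      exact h1
    · rw [flip_of_ne σ h5]
      exact h2

theorem T_true {f : ℤ × ℤ} {σ : ℤ × ℤ → Bool} (h : σ f = true) :
    (T f σ).ncard = #{k : Fin 6 | σ (f + dir k) = false} := by
  have h1 : T f σ = (fun k : Fin 6 => ((f, k) : St)) ''
      (({k : Fin 6 | σ (f + dir k) = false} : Finset (Fin 6)) : Set (Fin 6)) := by
    ext s
    constructor
    · rintro ⟨⟨h1, h2⟩, h3⟩
      have h4 : s.1 = f := by
        rcases h3 with h3 | h3
        · exact h3
        · rw [h3, h] at h2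
          exact absurd h2 (by decide)
      refine ⟨s.2, ?_, ?_⟩
      · rw [Finset.mem_coe, Finset.mem_filter]
        refine ⟨Finset.mem_univ _, ?_⟩
        rw [← h4]
        exact h2
      · rw [← h4]
    · rintro ⟨k, hk, rfl⟩
      rw [Finset.mem_coe, Finset.mem_filter] at hk
      exact ⟨⟨h, hk.2⟩, Or.inl rfl⟩
  rw [h1, Set.ncard_image_of_injective _ (fun k k' hkk => congrArg Prod.snd hkk),
    Set.ncard_coe_finset]

theorem T_false {f : ℤ × ℤ} {σ : ℤ × ℤ → Bool} (h : σ f = false) :
    (T f σ).ncard = #{k : Fin 6 | σ (f - dir k) = true} := by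
  have h1 : T f σ = (fun k : Fin 6 => ((f - dir k, k) : St)) ''
      (({k : Fin 6 | σ (f - dir k) = true} : Finset (Fin 6)) : Set (Fin 6)) := by
    ext s
    constructor
    · rintro ⟨⟨h1, h2⟩, h3⟩
      have h4 : rt s = f := by
        rcases h3 with h3 | h3
        · rw [h3, h] at h1
          exact absurd h1 (by decide)
        · exact h3
      have h5 : s.1 = f - dir s.2 := by
        rw [← h4]
        unfold rt
        rw [add_sub_cancel_right]
      refine ⟨s.2, ?_, ?_⟩
      · rw [Finset.mem_coe, Finset.mem_filter]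
        refine ⟨Finset.mem_univ _, ?_⟩
        rw [← h5]
        exact h1
      · change (f - dir s.2, s.2) = s
        rw [← h5]
    · rintro ⟨k, hk, rfl⟩
      rw [Finset.mem_coe, Finset.mem_filter] at hk
      refine ⟨⟨hk.2, ?_⟩, Or.inr ?_⟩
      · change σ (f - dir k + dir k) = false
        rw [sub_add_cancel]
        exact h
      · change f - dir k + dir k = f
        rw [sub_add_cancel]
  rw [h1, Set.ncard_image_of_injective _ (fun k k' hkk => congrArg Prod.snd hkk),
    Set.ncard_coe_finset]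

theorem sub_dir (f : ℤ × ℤ) : f - dir 0 = f + dir 3 ∧ f - dir 1 = f + dir 4 ∧
    f - dir 2 = f + dir 5 ∧ f - dir 3 = f + dir 0 ∧ f - dir 4 = f + dir 1 ∧
    f - dir 5 = f + dir 2 := by
  simp [dir, sub_eq_add_neg]

theorem cnt_false {f : ℤ × ℤ} {σ : ℤ × ℤ → Bool} (h : σ f = false) (v0 : σ (f + dir 0) = false)
    (v1 : σ (f + dir 1) = false) (v2 : σ (f + dir 2) = true) (v3 : σ (f + dir 3) = true)
    (v4 : σ (f + dir 4) = false) (v5 : σ (f + dir 5) = false) :
    (T f (Pool.Agent.N929.ON.flip f σ)).ncard = 4 ∧ (T f σ).ncard = 2 := by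
  have hft : Pool.Agent.N929.ON.flip f σ f = true := by
    rw [flip_self, h]
    rfl
  obtain ⟨e0, e1, e2, e3, e4, e5⟩ := sub_dir f
  constructor
  · rw [T_true hft]
    simp only [flip_of_ne σ (ne1 _ _), Finset.card_filter, Fin.sum_univ_six, v0, v1, v2, v3, v4, v5]
    simp
  · rw [T_false h]
    simp only [Finset.card_filter, Fin.sum_univ_six, e0, e1, e2, e3, e4, e5, v0, v1, v2, v3, v4, v5]
    simp

theorem cnt_true {f : ℤ × ℤ} {σ : ℤ × ℤ → Bool} (h : σ f = true) (v0 : σ (f + dir 0) = false)
    (v1 : σ (f + dir 1) = true) (v2 : σ (f + dir 2) = true) (v3 : σ (f + dir 3) = true)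
    (v4 : σ (f + dir 4) = true) (v5 : σ (f + dir 5) = false) :
    (T f (Pool.Agent.N929.ON.flip f σ)).ncard = 4 ∧ (T f σ).ncard = 2 := by
  have hft : Pool.Agent.N929.ON.flip f σ f = false := by
    rw [flip_self, h]
    rfl
  obtain ⟨e0, e1, e2, e3, e4, e5⟩ := sub_dir f
  constructor
  · rw [T_false hft]
    simp only [flip_of_ne σ (ne2 _ _), Finset.card_filter, Fin.sum_univ_six, e0, e1, e2, e3, e4, e5,
      v0, v1, v2, v3, v4, v5]
    simp
  · rw [T_true h]
    simp only [Finset.card_filter, Fin.sum_univ_six, v0, v1, v2, v3, v4, v5]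
    simp

theorem edg_flip : S_EDG := by
  intro W L σ x y hx hxW hy hyL hW hG hL
  have hf : tf W x y ∈ Dom W L := by
    unfold tf Dom
    split_ifs with h
    · rw [Finset.mem_product, Finset.mem_Icc, Finset.mem_Icc]
      simp only
      omega
    · rw [Finset.mem_product, Finset.mem_Icc, Finset.mem_Icc]
      simp only
      omega
  rw [edg_eq hf, edg_eq hf, R_flip]
  have key : (T (tf W x y) (Pool.Agent.N929.ON.flip (tf W x y) σ)).ncard = 4 ∧
      (T (tf W x y) σ).ncard = 2 := by
    by_cases h : x < W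
    · unfold Good at hG
      unfold Lng at hL
      rw [if_pos h] at hG hL
      obtain ⟨g1, g2, g3, g4, g5, g6, g7⟩ := hG
      have hff : σ (tf W x y) = false := by simpa using hL
      have hft : Pool.Agent.N929.ON.flip (tf W x y) σ (tf W x y) = true := by
        rw [flip_self, hff]
        rfl
      have htf : tf W x y = (x + 1, y + 2) := by
        unfold tf
        rw [if_pos h]
      have v0 : σ (tf W x y + dir 0) = false := by
        rw [htf, show ((x + 1, y + 2) : ℤ × ℤ) + dir 0 = (x + 2, y + 2) by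
          simp [dir]; ring]
        exact g6
      have v1 : σ (tf W x y + dir 1) = false := by
        rw [htf, show ((x + 1, y + 2) : ℤ × ℤ) + dir 1 = (x + 1, y + 3) by
          simp [dir]; ring]
        exact g7
      have v2 : σ (tf W x y + dir 2) = true := by
        rw [htf, show ((x + 1, y + 2) : ℤ × ℤ) + dir 2 = (x, y + 3) by
          simp [dir]; ring]
        exact g3
      have v3 : σ (tf W x y + dir 3) = true := by
        rw [htf, show ((x + 1, y + 2) : ℤ × ℤ) + dir 3 = (x, y + 2) by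
          simp [dir]]
        exact g2
      have v4 : σ (tf W x y + dir 4) = false := by
        rw [htf, show ((x + 1, y + 2) : ℤ × ℤ) + dir 4 = (x + 1, y + 1) by
          simp [dir]; ring]
        exact g4
      have v5 : σ (tf W x y + dir 5) = false := by
        rw [htf, show ((x + 1, y + 2) : ℤ × ℤ) + dir 5 = (x + 2, y + 1) by
          simp [dir]; constructor <;> ring]
        exact g5
      exact cnt_false hff v0 v1 v2 v3 v4 v5
    · have hx' : x = W := by omega
      unfold Good at hG
      unfold Lng at hL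
      rw [if_neg h] at hG hL
      obtain ⟨g1, g2, g3, g4, g5, g6, g7⟩ := hG
      have hff : σ (tf W x y) = true := by simpa using hL
      have htf : tf W x y = (x, y + 2) := by
        unfold tf
        rw [if_neg h]
      have v0 : σ (tf W x y + dir 0) = false := by
        rw [htf, show ((x, y + 2) : ℤ × ℤ) + dir 0 = (x + 1, y + 2) by
          simp [dir]]
        exact g6
      have v1 : σ (tf W x y + dir 1) = true := by
        rw [htf, show ((x, y + 2) : ℤ × ℤ) + dir 1 = (x, y + 3) by
          simp [dir]; ring]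
        exact g4
      have v2 : σ (tf W x y + dir 2) = true := by
        rw [htf, show ((x, y + 2) : ℤ × ℤ) + dir 2 = (x - 1, y + 3) by
          simp [dir]; constructor <;> ring]
        exact g3
      have v3 : σ (tf W x y + dir 3) = true := by
        rw [htf, show ((x, y + 2) : ℤ × ℤ) + dir 3 = (x - 1, y + 2) by
          simp [dir]; ring]
        exact g2
      have v4 : σ (tf W x y + dir 4) = true := by
        rw [htf, show ((x, y + 2) : ℤ × ℤ) + dir 4 = (x, y + 1) by
          simp [dir]; ring]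
        exact g1
      have v5 : σ (tf W x y + dir 5) = false := by
        rw [htf, show ((x, y + 2) : ℤ × ℤ) + dir 5 = (x + 1, y + 1) by
          simp [dir]; ring]
        exact g5
      exact cnt_true hff v0 v1 v2 v3 v4 v5
  omega

end Pool.Agent.N945.ON
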